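import Mathlib
import Pool.Agent.Zk73.AK.C

/-! # Every set of `k` slopes has exponent at least `1 + c log log k / k`: cheap sets of slopes -/

set_option autoImplicit false

namespace Pool.Agent.Zk46.US

open Finset
open Pool.Agent.R470.AK
open Pool.Agent.Zk73.AK

/-- The set `B` of slopes is cheap: with `M = 64 ^ 2 ^ K` there are sets `A` with `M ^ 2` differences,
at most `M ^ 2` values in all other directions and at most `(2 ^ (7 * 2 ^ K)) ^ (3 / 2)` values in the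
directions of `B` and in the direction `∞`. -/
def Cheap (B : Finset ℚ) : Prop :=
  ∃ K₀ : ℕ, ∀ K : ℕ, K₀ ≤ K → ∃ A : Finset (ℤ × ℤ), A.Nonempty ∧
    (proj (-1) A).card = (64 ^ 2 ^ K) ^ 2 ∧ (∀ r : ℚ, (proj r A).card ≤ (64 ^ 2 ^ K) ^ 2) ∧
    (projInf A).card ^ 2 ≤ (128 ^ 2 ^ K) ^ 3 ∧ ∀ r ∈ B, (proj r A).card ^ 2 ≤ (128 ^ 2 ^ K) ^ 3

end Pool.Agent.Zk46.US
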