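import Pool.Agent.Zk46.US.Final
import Pool.Agent.Zk9.US.Single
import Pool.Agent.Zk65.US.Numeric
import Pool.Agent.Zk59.US.NotUseful
import Pool.Agent.Zk86.US.Block

set_option autoImplicit false

namespace Pool.Agent.Zk46.US

open Finset
open Pool.Agent.R470.AK
open Pool.Agent.Zk73.AK

theorem nu : ∀ {b : ℕ}, 0 < b → ∀ f : ℕ → Finset ℚ, (∀ i < b, Cheap (f i)) → ∀ S : Finset ℚ,
    (∀ r ∈ S, ∃ i < b, r ∈ f i) → ∀ κ : ℝ, κ * (8 * b - 1) < 8 * b → ¬ Useful κ S :=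
  fun hb f hf S hS κ hκ => Pool.Agent.Zk59.US.not_useful hb f hf S hS κ hκ

theorem eb : ∀ l : ℕ, 1 ≤ l → ∀ S : Finset ℚ, 2 ^ (12 * 2 ^ l + 16) ≤ S.card →
    ∃ u : ℕ → ℚ, Blk 2 64 l u ∧ (∀ i < l, u i ∈ S) ∧ Set.InjOn u (Set.Iio l) :=
  fun l hl S hS => exists_block l hl S hS

theorem universal' : ∃ k₀ : ℕ, ∀ S : Finset ℚ, (-1 : ℚ) ∉ S → k₀ ≤ S.card →
    ∀ κ : ℝ, κ ≤ 1 + Real.log (Real.log S.card) / (9 * S.card) → ¬ Useful κ S :=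
  universal single nu eb Pool.Agent.Zk65.US.numeric

theorem many' : ∃ ε₀ : ℝ, 0 < ε₀ ∧ ∀ ε : ℝ, 0 < ε → ε ≤ ε₀ → ∀ S : Finset ℚ, (-1 : ℚ) ∉ S →
    Useful (1 + ε) S → Real.log (Real.log (1 / (9 * ε))) / (9 * ε) < S.card :=
  many single nu eb Pool.Agent.Zk65.US.numeric

end Pool.Agent.Zk46.US
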