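import Pool.Agent.Zk46.US.Defs

/-! # Covering a set of slopes by cheap sets -/

set_option autoImplicit false

namespace Pool.Agent.Zk46.US

open Finset
open Pool.Agent.R470.AK
open Pool.Agent.Zk73.AK

/-- blocks are cheap -/
theorem block (L : ℕ) (u : ℕ → ℚ) (h : Blk 2 64 L u) : Cheap ((range L).image u) := by
  obtain ⟨t, ν, h0, hg, hj⟩ := extend h
  refine ⟨L, fun K hK => ?_⟩
  obtain ⟨A, a1, a2, a3, a4, a5⟩ := assemble2 (by norm_num : 0 < 64) t ν h0 hg K
  refine ⟨A, a1, a2, a3, a4, fun r hr => ?_⟩
  obtain ⟨j, hjL, rfl⟩ := mem_image.1 hr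
  rw [mem_range] at hjL
  refine a5 _ ?_
  rcases hj j hjL with h1 | ⟨i, hi, h1⟩
  · exact Or.inl h1
  · exact Or.inr ⟨i, by omega, h1⟩

/-- every set of slopes is covered by few cheap sets -/
theorem cover (single : ∀ r : ℚ, r ≠ -1 → Cheap {r}) (l T : ℕ) (hl : 1 ≤ l)
    (hex : ∀ S : Finset ℚ, T ≤ S.card →
      ∃ u : ℕ → ℚ, Blk 2 64 l u ∧ (∀ i < l, u i ∈ S) ∧ Set.InjOn u (Set.Iio l)) :
    ∀ (n : ℕ) (S : Finset ℚ), S.card = n → (-1 : ℚ) ∉ S →
      ∃ (b : ℕ) (f : ℕ → Finset ℚ), (∀ i < b, Cheap (f i)) ∧ (∀ r ∈ S, ∃ i < b, r ∈ f i) ∧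
        b * l ≤ S.card + T * l := by
  classical
  intro n
  induction n using Nat.strong_induction_on with
  | _ n ih =>
    intro S hSn hS
    rcases lt_or_ge S.card T with hT | hT
    · obtain ⟨e⟩ : Nonempty (Fin S.card ≃ S) := ⟨S.equivFin.symm⟩
      refine ⟨S.card, fun i => if h : i < S.card then {((e ⟨i, h⟩ : S) : ℚ)} else ∅, ?_, ?_, ?_⟩
      · intro i hi
        simp only [dif_pos hi]
        refine single _ fun h => hS ?_
        rw [← h]
        exact (e ⟨i, hi⟩).2
      · intro r hr
        refine ⟨(e.symm ⟨r, hr⟩ : Fin S.card), (e.symm ⟨r, hr⟩).2, ?_⟩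
        simp only [Fin.is_lt, dif_pos, Fin.eta, Equiv.apply_symm_apply, mem_singleton]
      · have := Nat.mul_le_mul_right l hT.le
        omega
    · obtain ⟨u, hu, huS, hinj⟩ := hex S hT
      set B : Finset ℚ := (range l).image u with hB
      have hBS : B ⊆ S := by
        intro x hx
        obtain ⟨i, hi, rfl⟩ := mem_image.1 hx
        exact huS i (mem_range.1 hi)
      have hBc : B.card = l := by
        rw [hB, card_image_of_injOn, card_range]
        intro x hx y hy hxy
        rw [mem_coe, mem_range] at hx hy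
        exact hinj hx hy hxy
      have hSB : (S \ B).card = S.card - l := by
        rw [card_sdiff_of_subset hBS, hBc]
      have hlS : l ≤ S.card := by
        rw [← hBc]
        exact card_le_card hBS
      obtain ⟨b, f, h1, h2, h3⟩ := ih (S \ B).card (by omega) (S \ B) rfl
        (fun h => hS (mem_sdiff.1 h).1)
      refine ⟨b + 1, fun i => if i = b then B else f i, ?_, ?_, ?_⟩
      · intro i hi
        by_cases hib : i = b
        · simp only [hib, if_true]
          exact block l u hu
        · simp only [hib, if_false]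
          exact h1 i (by omega)
      · intro r hr
        by_cases hrB : r ∈ B
        · exact ⟨b, Nat.lt_succ_self b, by simp only [if_true]; exact hrB⟩
        · obtain ⟨i, hi, hri⟩ := h2 r (mem_sdiff.2 ⟨hr, hrB⟩)
          refine ⟨i, by omega, ?_⟩
          have : i ≠ b := by omega
          simp only [this, if_false]
          exact hri
      · rw [hSB] at h3
        have : (b + 1) * l = b * l + l := by ring
        omega

end Pool.Agent.Zk46.US
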