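import Pool.Agent.Zk46.US.Cover

/-! # The universal lower bound -/

set_option autoImplicit false

namespace Pool.Agent.Zk46.US

open Finset
open Pool.Agent.R470.AK
open Pool.Agent.Zk73.AK

section
variable (single : ∀ r : ℚ, r ≠ -1 → Cheap {r})
  (not_useful : ∀ {b : ℕ}, 0 < b → ∀ f : ℕ → Finset ℚ, (∀ i < b, Cheap (f i)) → ∀ S : Finset ℚ,
    (∀ r ∈ S, ∃ i < b, r ∈ f i) → ∀ κ : ℝ, κ * (8 * b - 1) < 8 * b → ¬ Useful κ S)
  (exists_block : ∀ l : ℕ, 1 ≤ l → ∀ S : Finset ℚ, 2 ^ (12 * 2 ^ l + 16) ≤ S.card →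
    ∃ u : ℕ → ℚ, Blk 2 64 l u ∧ (∀ i < l, u i ∈ S) ∧ Set.InjOn u (Set.Iio l))
  (numeric : ∃ k₀ : ℕ, ∀ k : ℕ, k₀ ≤ k → ∃ l : ℕ, 1 ≤ l ∧ Real.log (Real.log k) ≤ l ∧
    2 ^ (12 * 2 ^ l + 16) * l * 16 ≤ k)

include single not_useful in
theorem trivial_bound (S : Finset ℚ) (hS : (-1 : ℚ) ∉ S) (h0 : 0 < S.card) (κ : ℝ)
    (hκ : κ * (8 * S.card - 1) < 8 * S.card) : ¬ Useful κ S := by
  classical
  obtain ⟨e⟩ : Nonempty (Fin S.card ≃ S) := ⟨S.equivFin.symm⟩
  refine not_useful h0 (fun i => if h : i < S.card then {((e ⟨i, h⟩ : S) : ℚ)} else ∅) ?_ S ?_ κ hκ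
  · intro i hi
    simp only [dif_pos hi]
    refine single _ fun h => hS ?_
    rw [← h]
    exact (e ⟨i, hi⟩).2
  · intro r hr
    refine ⟨(e.symm ⟨r, hr⟩ : Fin S.card), (e.symm ⟨r, hr⟩).2, ?_⟩
    simp only [Fin.is_lt, dif_pos, Fin.eta, Equiv.apply_symm_apply, mem_singleton]

include single not_useful exists_block numeric in
theorem universal : ∃ k₀ : ℕ, ∀ S : Finset ℚ, (-1 : ℚ) ∉ S → k₀ ≤ S.card →
    ∀ κ : ℝ, κ ≤ 1 + Real.log (Real.log S.card) / (9 * S.card) → ¬ Useful κ S := by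
  obtain ⟨k₀, hk₀⟩ := numeric
  refine ⟨max k₀ 1, fun S hS hk κ hκ => ?_⟩
  obtain ⟨l, hl1, hl2, hl3⟩ := hk₀ S.card ((le_max_left _ _).trans hk)
  have hk1 : 1 ≤ S.card := (le_max_right _ _).trans hk
  obtain ⟨b, f, h1, h2, h3⟩ := cover single l (2 ^ (12 * 2 ^ l + 16)) hl1
    (fun S hS => exists_block l hl1 S hS) S.card S rfl hS
  have hb : 0 < b := by
    obtain ⟨r, hr⟩ := card_pos.1 hk1
    obtain ⟨i, hi, -⟩ := h2 r hr
    omega
  refine not_useful hb f h1 S h2 κ ?_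
  have hbl : 16 * (b * l) ≤ 17 * S.card := by omega
  have hblR : 16 * ((b : ℝ) * l) ≤ 17 * S.card := by exact_mod_cast hbl
  have hkR : (1 : ℝ) ≤ S.card := by exact_mod_cast hk1
  have hbR : (1 : ℝ) ≤ b := by exact_mod_cast hb
  set L : ℝ := Real.log (Real.log S.card) with hL
  have hlR : (1 : ℝ) ≤ l := by exact_mod_cast hl1
  have h4 : κ * (8 * b - 1) ≤ (1 + L / (9 * S.card)) * (8 * b - 1) :=
    mul_le_mul_of_nonneg_right hκ (by linarith)
  refine lt_of_le_of_lt h4 ?_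
  have h5 : L * (8 * b - 1) < 9 * S.card := by
    have h6 : L * (8 * b - 1) ≤ l * (8 * b - 1) :=
      mul_le_mul_of_nonneg_right hl2 (by linarith)
    nlinarith
  have h7 : L / (9 * S.card) * (8 * b - 1) < 1 := by
    rw [div_mul_eq_mul_div, div_lt_one (by linarith)]
    exact h5
  linarith

include single not_useful exists_block numeric in
/-- many slopes are necessary -/
theorem many : ∃ ε₀ : ℝ, 0 < ε₀ ∧ ∀ ε : ℝ, 0 < ε → ε ≤ ε₀ → ∀ S : Finset ℚ, (-1 : ℚ) ∉ S →
    Useful (1 + ε) S → Real.log (Real.log (1 / (9 * ε))) / (9 * ε) < S.card := by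
  obtain ⟨k₀, hk₀⟩ := universal single not_useful exists_block numeric
  refine ⟨1 / (9 * ((k₀ : ℝ) + 3)), by positivity, fun ε h0 h1 S hS hU => ?_⟩
  have hk3 : (0 : ℝ) < (k₀ : ℝ) + 3 := by positivity
  rw [le_div_iff₀ (by positivity)] at h1
  have hz : (k₀ : ℝ) + 3 ≤ 1 / (9 * ε) := by
    rw [le_div_iff₀ (by positivity)]
    linarith
  have hne : S.Nonempty := by
    rw [nonempty_iff_ne_empty]
    rintro rfl
    -- the empty set of slopes: use a larger set
    obtain ⟨C, hC⟩ := hU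
    refine trivial_bound single not_useful {0} (by simp) (by simp) (1 + ε) ?_ ⟨max C 0, fun A => ?_⟩
    · have h9 : 9 * ε * 3 ≤ 1 := by nlinarith [(Nat.cast_nonneg k₀ : (0 : ℝ) ≤ k₀)]
      simp only [card_singleton, Nat.cast_one]
      linarith
    · refine (hC A).trans (mul_le_mul (le_max_left _ _) ?_ (by positivity) (le_max_right _ _))
      refine Real.rpow_le_rpow (by positivity) ?_ (by linarith)
      have : big ∅ A ≤ big {0} A := by
        unfold big
        exact max_le_max le_rfl (sup_mono (empty_subset _))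
      exact_mod_cast this
  have hc : 0 < S.card := card_pos.2 hne
  have hcR : (0 : ℝ) < S.card := by exact_mod_cast hc
  -- at least 1 / (9 ε) slopes
  have h2 : 1 / (9 * ε) ≤ S.card := by
    by_contra h
    push Not at h
    refine trivial_bound single not_useful S hS hc (1 + ε) ?_ hU
    rw [lt_div_iff₀ (by positivity)] at h
    nlinarith
  have h3 : k₀ ≤ S.card := by
    have : (k₀ : ℝ) ≤ S.card := by linarith
    exact_mod_cast this
  have h4 : Real.log (Real.log S.card) / (9 * S.card) < ε := by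
    by_contra h
    push Not at h
    exact hk₀ S hS h3 (1 + ε) (by linarith) hU
  rw [div_lt_iff₀ (by positivity)] at h4
  have h5 : 0 < Real.log (1 / (9 * ε)) := Real.log_pos (by linarith [(Nat.cast_nonneg k₀ : (0 : ℝ) ≤ k₀)])
  have h6 : Real.log (Real.log (1 / (9 * ε))) ≤ Real.log (Real.log S.card) := by
    refine Real.log_le_log h5 (Real.log_le_log (by positivity) h2)
  rw [div_lt_iff₀ (by positivity)]
  linarith

end

end Pool.Agent.Zk46.US
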